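import Mathlib
import Pool.Agent.Lib.MP_dcc566_gt_E.Ez

/-!
# The maximal non-uniform arithmetic reflection groups of hyperbolic 18-space

Hyperbolic 18-space is the projectivised light cone of the form `J 18 = diag(1, ..., 1, -1)` on
`ℝ^19`, and its isometry group is `OR (J 18) / {1, -1}`.  `IsMaxRefl Γ` says that `Γ ≤ OR (J 18)` is
a maximal non-uniform arithmetic reflection group.  `UEE1 K` is the Gram matrix of the lattice
`U ⊕ E₈ ⊕ E₈ ⊕ K`, `K` of rank 1, and `W G` is the group generated by all reflections of the lattice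
with Gram matrix `G`.
-/

namespace Pool.Agent.Results.MP_dcc566_gt.ClassificationEighteen

open Matrix Pool.Agent.RFL Pool.Agent.RFN

/-- Up to conjugacy there are exactly two maximal non-uniform arithmetic reflection groups of
hyperbolic 18-space: the reflection group of the lattice `U ⊕ E₈ ⊕ E₈ ⊕ ⟨2⟩` and that of
`U ⊕ E₈ ⊕ E₈ ⊕ ⟨4⟩`. -/
theorem result : ∃ Γ₁ Γ₂ : Subgroup (GL (Fin (18 + 1)) ℝ),
    IsMaxRefl Γ₁ ∧ IsMaxRefl Γ₂ ∧ (¬ ∃ g ∈ OR (J 18), cj g Γ₁ = Γ₂) ∧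
    (∀ Γ : Subgroup (GL (Fin (18 + 1)) ℝ), IsMaxRefl Γ →
      ∃ g ∈ OR (J 18), cj g Γ = Γ₁ ∨ cj g Γ = Γ₂) ∧
    (∃ C : GL (Fin (18 + 1)) ℝ, C.valᵀ * J 18 * C.val = toR (UEE1 !![2]) ∧
      cj C Γ₁ = W (UEE1 !![2])) ∧
    (∃ C : GL (Fin (18 + 1)) ℝ, C.valᵀ * J 18 * C.val = toR (UEE1 !![4]) ∧
      cj C Γ₂ = W (UEE1 !![4])) :=
  classification18

end Pool.Agent.Results.MP_dcc566_gt.ClassificationEighteen
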